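import Pool.Agent.Y207.FC.ThreeP
import Pool.Agent.TH451.FC.Motion

set_option autoImplicit false

/-!
# F-nef divisors on `M̄_{0,n}` and curves whose collisions lie over three points

The marks are `0, …, p-1` (the type `Fin p`) and `∞`, so `n = p + 1`.  The boundary divisors of
`M̄_{0,n}` are the `δ_S`, `S` a set of marks different from `∞` with `2 ≤ |S| < p` (`δ_S`
separates `S` from the other marks).

Let `C → M̄_{0,n}` be a curve (of any genus) that meets the interior, and `d = C · ψ_∞`.  The marks
`i ≠ ∞` are sections of a line bundle of degree `d` on `C`, the mark `∞` is the section at infinity.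
At a point `τ` of `C` the sections `i ≠ j` have a contact of order `con τ i j ≥ 0`; the marks whose
mutual contacts at `τ` are at least `r ≥ 1` form the classes of an equivalence relation, and the
classes `S` are the collisions of order `r` at `τ`.  The intersection number `C · δ_S` is the number
of pairs `(τ, r)` such that `S` is a collision of order `r` at `τ`.

The theorem: an F-nef divisor has nonnegative degree on `C` if all the collisions of at least three
marks take place at at most three points of `C`, the degree `d` being arbitrary, and either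
`n ≤ 14`, or (for arbitrary `n`) the collisions at one or two of the three points are not too many.

The proof cuts the set of marks along the collisions at one of the points; the gain of the divisor
along the cut is superadditive on rectangles, the collisions at the two other points give disjoint
rectangles, and these can be separated by guillotine cuts.
-/

namespace Pool.Agent.Results.MP_23e236_ag.ThreePoints

open Finset Polynomial

variable {p : ℕ}

/-- `c` is a family of coefficients: it stands for the divisor `∑ c S • δ_S`, the sum over the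
`S` with `2 ≤ |S| < p`; it vanishes on the sets that give no boundary divisor. -/
def IsDivisor (c : Finset (Fin p) → ℝ) : Prop :=
  (∀ S : Finset (Fin p), S.card ≤ 1 → c S = 0) ∧ c univ = 0

/-- `∑ c S • δ_S` has nonnegative degree on every F-curve: the F-curve of the partition
`A, B, C, (the rest, with ∞)` of the marks has degree `1` on `δ_(A∪B), δ_(A∪C), δ_(B∪C)`, degree
`-1` on `δ_A, δ_B, δ_C, δ_(A∪B∪C)` (those of them that exist) and `0` on the others. -/
def FNef (c : Finset (Fin p) → ℝ) : Prop :=
  ∀ A B C : Finset (Fin p), A.Nonempty → B.Nonempty → C.Nonempty →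
    Disjoint A B → Disjoint A C → Disjoint B C →
    c A + c B + c C + c (A ∪ B ∪ C) ≤ c (A ∪ B) + c (A ∪ C) + c (B ∪ C)

/-- `con τ i j` is the order of contact of the marks `i ≠ j` (both different from `∞`) at the point
`τ` of a curve of degree `d` over `ψ_∞`: it is symmetric and satisfies the ultrametric inequality,
two marks have `d` contacts (the number of pairs `(τ, r)`, `1 ≤ r ≤ con τ i j`, is `d`), and at no
point all marks collide. -/
def IsMotion {Θ : Type} (con : Θ → Fin p → Fin p → ℕ) (d : ℕ) : Prop :=
  (∀ τ i j, con τ i j = con τ j i) ∧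
  (∀ τ i j l, i ≠ l → min (con τ i j) (con τ j l) ≤ con τ i l) ∧
  (∀ i j, i ≠ j → {q : Θ × ℕ | 1 ≤ q.2 ∧ q.2 ≤ con q.1 i j}.encard = d) ∧
  ∀ τ, ∃ i j, i ≠ j ∧ con τ i j = 0

/-- `S` is a collision of order `r ≥ 1` at `τ`: a class of marks whose mutual contacts at `τ` are at
least `r`. -/
def Collision {Θ : Type} (con : Θ → Fin p → Fin p → ℕ) (τ : Θ) (r : ℕ) (S : Finset (Fin p)) :
    Prop :=
  1 ≤ r ∧ ∃ i ∈ S, ∀ j, j ∈ S ↔ (j = i ∨ r ≤ con τ i j)

/-- The intersection number with `δ_S`: the number of pairs `(τ, r)` such that `S` is a collision of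
order `r` at `τ`. -/
noncomputable def intersection {Θ : Type} (con : Θ → Fin p → Fin p → ℕ) (S : Finset (Fin p)) : ℕ :=
  Set.ncard {q : Θ × ℕ | Collision con q.1 q.2 S}

/-- There are no collisions of at least three marks at the points outside `T`. -/
def NoneOutside {Θ : Type} (con : Θ → Fin p → Fin p → ℕ) (T : Finset Θ) : Prop :=
  ∀ τ ∉ T, ∀ (r : ℕ) (S : Finset (Fin p)), Collision con τ r S → S.card ≤ 2

/-- The number of collisions of order `r` at `τ` of at least `s` marks. -/
noncomputable def number {Θ : Type} (con : Θ → Fin p → Fin p → ℕ) (τ : Θ) (r s : ℕ) : ℕ :=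
  {S : Finset (Fin p) | s ≤ S.card ∧ Collision con τ r S}.ncard

/-- `T` consists of at most three points, and
* there are at most two points, or
* there are at most thirteen marks different from `∞`, or
* at one of the points there is for every `r` at most one collision of order `r` of at least six
  marks, or
* two of the points `τ`, `τ'` are such that for all `r, s ≥ 1` with `r + s ≤ d + 1` there are at most
  two collisions of order `r` of at least three marks at `τ`, or at most two of order `s` at `τ'`, or
  at most three of order `r` at `τ` and at most three of order `s` at `τ'`. -/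
def AtThreePoints {Θ : Type} (con : Θ → Fin p → Fin p → ℕ) (d : ℕ) (T : Finset Θ) : Prop :=
  T.card ≤ 3 ∧ (T.card ≤ 2 ∨ p ≤ 13 ∨ (∃ τ ∈ T, ∀ r, number con τ r 6 ≤ 1) ∨
    ∃ τ ∈ T, ∃ τ' ∈ T, τ ≠ τ' ∧ ∀ r s, 1 ≤ r → 1 ≤ s → r + s ≤ d + 1 →
      number con τ r 3 ≤ 2 ∨ number con τ' s 3 ≤ 2 ∨
      (number con τ r 3 ≤ 3 ∧ number con τ' s 3 ≤ 3))

/-- The marks `i ≠ ∞` move on the line by the polynomials `x i` of degree at most `d`, the time
is a point `τ` of the projective line (`none` is the point at infinity, where the positions are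
rescaled by `t ^ d`).  This is the order of vanishing of the difference of the positions of `i`
and `j` at the time `τ`. -/
noncomputable def contact {k : Type} [Field k] (d : ℕ) (x : Fin p → k[X]) (τ : Option k)
    (i j : Fin p) : ℕ :=
  match τ with
  | none => d - (x i - x j).natDegree
  | some t => (x i - x j).rootMultiplicity t

/-! ### The change of gauge -/

/-- Sum of `c` over ordered pairs. -/
def X (c : Finset (Fin p) → ℝ) (A B : Finset (Fin p)) : ℝ := ∑ i ∈ A, ∑ j ∈ B, c {i, j}

lemma X_comm (c : Finset (Fin p) → ℝ) (A B : Finset (Fin p)) : X c A B = X c B A := by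
  unfold X
  rw [sum_comm]
  refine sum_congr rfl fun i _ => sum_congr rfl fun j _ => ?_
  rw [pair_comm]

lemma X_union_left (c : Finset (Fin p) → ℝ) {A B : Finset (Fin p)} (h : Disjoint A B)
    (E : Finset (Fin p)) : X c (A ∪ B) E = X c A E + X c B E := by
  unfold X
  rw [sum_union h]

lemma X_union_right (c : Finset (Fin p) → ℝ) {A B : Finset (Fin p)} (h : Disjoint A B)
    (E : Finset (Fin p)) : X c E (A ∪ B) = X c E A + X c E B := by
  rw [X_comm, X_union_left c h, X_comm c A, X_comm c B]

/-- The divisor in the basis `ψ_∞`, `δ_S` (`|S| ≥ 3`), up to sign. -/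
noncomputable def H (c : Finset (Fin p) → ℝ) (S : Finset (Fin p)) : ℝ := X c S S / 2 - c S

lemma H_small {c : Finset (Fin p) → ℝ} (hc : IsDivisor c) (S : Finset (Fin p))
    (hS : S.card ≤ 2) : H c S = 0 := by
  unfold H X
  have h1 : S.card = 0 ∨ S.card = 1 ∨ S.card = 2 := by omega
  rcases h1 with h1 | h1 | h1
  · rw [card_eq_zero] at h1
    subst h1
    simp [hc.1 ∅ (by simp)]
  · rw [card_eq_one] at h1
    obtain ⟨i, rfl⟩ := h1
    simp [hc.1 {i} (by simp)]
  · rw [card_eq_two] at h1
    obtain ⟨i, j, hij, rfl⟩ := h1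
    have e1 : c {i, i} = 0 := hc.1 _ (by simp)
    have e2 : c {j, j} = 0 := hc.1 _ (by simp)
    rw [sum_pair hij, sum_pair hij, sum_pair hij, e1, e2, pair_comm j i]
    ring

lemma H_F {c : Finset (Fin p) → ℝ} (hF : FNef c) (A B C : Finset (Fin p)) (hA : A.Nonempty)
    (hB : B.Nonempty) (hC : C.Nonempty) (hAB : Disjoint A B) (hAC : Disjoint A C)
    (hBC : Disjoint B C) :
    H c (A ∪ B) + H c (A ∪ C) + H c (B ∪ C) ≤ H c (A ∪ B ∪ C) + H c A + H c B + H c C := by
  have h1 := hF A B C hA hB hC hAB hAC hBC
  have hABC : Disjoint (A ∪ B) C := disjoint_union_left.2 ⟨hAC, hBC⟩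
  unfold H
  rw [X_union_left c hAB, X_union_right c hAB, X_union_right c hAB, X_union_left c hAC,
    X_union_right c hAC, X_union_right c hAC, X_union_left c hBC, X_union_right c hBC,
    X_union_right c hBC, X_union_left c hABC, X_union_right c hABC, X_union_right c hABC,
    X_union_left c hAB, X_union_left c hAB, X_union_right c hAB, X_union_right c hAB,
    X_union_right c hAB, X_comm c B A, X_comm c C A, X_comm c C B]
  linarith

lemma degree_eq {c : Finset (Fin p) → ℝ} (hc : IsDivisor c) {m : Finset (Fin p) → ℕ} {d : ℕ}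
    (hu : m univ = 0) (hm : ∀ i j : Fin p, i ≠ j →
      ∑ S ∈ univ.filter (fun S : Finset (Fin p) => i ∈ S ∧ j ∈ S), m S = d) :
    ∑ S ∈ univ.filter (fun S : Finset (Fin p) => 2 ≤ S.card ∧ S.card < p), c S * m S =
      d * H c univ - ∑ S : Finset (Fin p), m S * H c S := by
  have h0 : ∑ S ∈ univ.filter (fun S : Finset (Fin p) => 2 ≤ S.card ∧ S.card < p), c S * m S =
      ∑ S : Finset (Fin p), c S * m S := by
    refine sum_subset (subset_univ _) fun S _ hS => ?_
    by_cases h2 : S.card ≤ 1
    · rw [hc.1 S h2, zero_mul]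
    · have h3 : S = univ := by
        apply eq_univ_of_card
        rw [Fintype.card_fin]
        have h5 : S.card ≤ p := by
          have := card_le_univ S
          rwa [Fintype.card_fin] at this
        by_contra h6
        exact hS (mem_filter.2 ⟨mem_univ _, by omega, by omega⟩)
      rw [h3, hu, Nat.cast_zero, mul_zero]
  rw [h0]
  have h1 : ∑ S : Finset (Fin p), (m S : ℝ) * X c S S = d * X c univ univ := by
    have h2 : ∀ S : Finset (Fin p), (m S : ℝ) * X c S S =
        ∑ i : Fin p, ∑ j : Fin p, if i ∈ S ∧ j ∈ S then c {i, j} * m S else 0 := by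
      intro S
      unfold X
      rw [mul_sum]
      rw [← sum_subset (subset_univ S)]
      · refine sum_congr rfl fun i hi => ?_
        rw [mul_sum, ← sum_subset (subset_univ S)]
        · refine sum_congr rfl fun j hj => ?_
          rw [if_pos ⟨hi, hj⟩, mul_comm]
        · intro j _ hj
          rw [if_neg (fun h => hj h.2)]
      · intro i _ hi
        refine sum_eq_zero fun j _ => ?_
        rw [if_neg (fun h => hi h.1)]
    rw [sum_congr rfl fun S _ => h2 S, sum_comm]
    unfold X
    rw [mul_sum]
    refine sum_congr rfl fun i _ => ?_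
    rw [sum_comm, mul_sum]
    refine sum_congr rfl fun j _ => ?_
    by_cases hij : i = j
    · subst hij
      have e1 : c {i, i} = 0 := hc.1 _ (by simp)
      rw [e1]
      simp
    · rw [← sum_filter, ← mul_sum, mul_comm]
      congr 1
      have := hm i j hij
      rw [← this]
      push_cast
      rfl
  have h3 : ∀ S : Finset (Fin p), c S * m S = (m S * X c S S) / 2 - m S * H c S := by
    intro S
    unfold H
    ring
  rw [sum_congr rfl fun S _ => h3 S, sum_sub_distrib, ← sum_div, h1]
  have h4 : H c univ = X c univ univ / 2 := by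
    unfold H
    rw [hc.2]; ring
  rw [h4]
  ring

/-! ### Nonnegativity -/

theorem main {c : Finset (Fin p) → ℝ} (hc : IsDivisor c) (hF : FNef c) {Θ : Type}
    {con : Θ → Fin p → Fin p → ℕ} {d : ℕ} (hcon : IsMotion con d) {T : Finset Θ}
    (hno : NoneOutside con T) (hT : AtThreePoints con d T) :
    0 ≤ ∑ S ∈ univ.filter (fun S : Finset (Fin p) => 2 ≤ S.card ∧ S.card < p),
      c S * intersection con S := by
  classical
  obtain ⟨hsym, hult, hlev, hall⟩ := hcon
  have hs := H_small hc
  have hFF := H_F hF
  have hu : intersection con (univ : Finset (Fin p)) = 0 :=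
    Pool.Agent.Y207.FC.inter_eq_zero hsym hult fun t => by
      obtain ⟨i, j, hij, h⟩ := hall t
      exact ⟨i, mem_univ _, j, mem_univ _, hij, h⟩
  have hpair : ∀ i j : Fin p, i ≠ j →
      ∑ S ∈ univ.filter (fun S : Finset (Fin p) => i ∈ S ∧ j ∈ S), intersection con S = d :=
    fun i j hij => Pool.Agent.Y207.FC.pair_sum hsym hult hlev hij
  rw [degree_eq hc hu hpair]
  obtain ⟨T₀, hTT₀, h0⟩ := Pool.Agent.Y207.FC.exists_finset hsym hult hlev T
  have h1 : ∑ S : Finset (Fin p), (intersection con S : ℝ) * H c S =
      ∑ t ∈ T₀, Pool.Agent.Y207.FC.W d (H c) (con t) :=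
    Pool.Agent.Y207.FC.sum_inter hsym hult hlev hs h0
  rw [h1, ← sum_sdiff hTT₀, sum_eq_zero (s := T₀ \ T), zero_add]
  · have hnum : ∀ (τ : Θ) (l s : ℕ), 1 ≤ l →
        {S : Finset (Fin p) | s ≤ S.card ∧ Pool.Agent.Y207.FC.IsCl (con τ) l S}.ncard =
          number con τ l s := by
      intro τ l s hl
      unfold number
      congr 1
      ext S
      rw [Set.mem_ofPred_eq, Set.mem_ofPred_eq]
      constructor
      · rintro ⟨h2, h3⟩
        exact ⟨h2, hl, h3⟩
      · rintro ⟨h2, _, h3⟩
        exact ⟨h2, h3⟩
    have h2 := Pool.Agent.Y207.FC.three_T (con := con) (d := d)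
      (fun t => ⟨hsym t, hult t⟩) hs hFF T hT.1
      (fun i j hij => Pool.Agent.Y207.FC.sum_con_le hsym hult hlev hij T)
      (by
        rcases hT.2 with h3 | h3 | ⟨τ, hτ, h3⟩ | ⟨τ, hτ, τ', hτ', hne, h3⟩
        · exact Or.inl h3
        · exact Or.inr (Or.inl (by rw [Fintype.card_fin]; exact h3))
        · refine Or.inr (Or.inr (Or.inl ⟨τ, hτ, fun l hl => ?_⟩))
          rw [hnum τ l 6 hl]
          exact h3 l
        · refine Or.inr (Or.inr (Or.inr ⟨τ, hτ, τ', hτ', hne, fun r s hr hs' hrs => ?_⟩))
          unfold Pool.Agent.Y207.FC.Nu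
          rw [hnum τ r 3 hr, hnum τ' s 3 hs']
          exact h3 r s hr hs' hrs)
    linarith
  · intro t ht
    exact Pool.Agent.Y207.FC.W_outside hs fun l S hl hS =>
      hno t (mem_sdiff.1 ht).2 l S ⟨hl, hS⟩

theorem polynomials {k : Type} [Field k] [IsAlgClosed k] (d : ℕ) (x : Fin p → k[X])
    (hd : ∀ i, (x i).natDegree ≤ d) (hx : ∀ i j, i ≠ j → x i ≠ x j)
    (h1 : ∀ τ : Option k, ∃ i j, i ≠ j ∧ contact d x τ i j = 0) :
    IsMotion (contact d x) d := by
  classical
  have econ : ∀ τ i j, contact d x τ i j = Pool.Agent.TH451.FC.contact d x τ i j := by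
    intro τ i j
    cases τ <;> rfl
  refine ⟨?_, ?_, ?_, h1⟩
  · intro τ i j
    rw [econ, econ]
    exact Pool.Agent.TH451.FC.contact_symm d x τ i j
  · intro τ i j l hil
    rcases Nat.eq_zero_or_pos (min (contact d x τ i j) (contact d x τ j l)) with h0 | h0
    · rw [h0]
      exact Nat.zero_le _
    · rw [econ τ i l]
      refine Pool.Agent.TH451.FC.contact_trans (j := j) h0 hx hil ?_ ?_
      · rw [← econ]
        exact min_le_left _ _
      · rw [← econ]
        exact min_le_right _ _
  · intro i j hij
    have e1 : {q : Option k × ℕ | 1 ≤ q.2 ∧ q.2 ≤ contact d x q.1 i j} =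
        (Pool.Agent.TH451.FC.lev d x i j : Set (Option k × ℕ)) := by
      ext q
      rw [mem_coe, Pool.Agent.TH451.FC.mem_lev hd hx hij, Set.mem_ofPred_eq, econ]
    rw [e1, Set.encard_coe_eq_coe_finsetCard, Pool.Agent.TH451.FC.card_lev hd hx hij]

/-- **Main theorem.** Let `D = ∑ c S • δ_S` be an F-nef divisor on `M̄_{0,p+1}`. Then `D · C ≥ 0`
1. for every curve `C` of arbitrary degree `d` over `ψ_∞`, given by its orders of contact, such that
   all collisions of at least three marks take place at the points of a set `T` of at most three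
   points with the property `AtThreePoints` (which always holds if `p ≤ 13`);
2. in particular for every such curve `t ↦ ((x i)(t))_i, ∞` given by different polynomials `x i` of
   degree at most `d` over an algebraically closed field. -/
theorem result :
    ∀ (p : ℕ) (c : Finset (Fin p) → ℝ), IsDivisor c → FNef c →
      (∀ (Θ : Type) (con : Θ → Fin p → Fin p → ℕ) (d : ℕ) (T : Finset Θ), IsMotion con d →
        NoneOutside con T → AtThreePoints con d T →
        0 ≤ ∑ S ∈ univ.filter (fun S : Finset (Fin p) => 2 ≤ S.card ∧ S.card < p),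
          c S * intersection con S) ∧
      (∀ (k : Type) [Field k] [IsAlgClosed k] (d : ℕ) (x : Fin p → k[X]) (T : Finset (Option k)),
        (∀ i, (x i).natDegree ≤ d) → (∀ i j, i ≠ j → x i ≠ x j) →
        (∀ τ : Option k, ∃ i j, i ≠ j ∧ contact d x τ i j = 0) →
        NoneOutside (contact d x) T → AtThreePoints (contact d x) d T →
        0 ≤ ∑ S ∈ univ.filter (fun S : Finset (Fin p) => 2 ≤ S.card ∧ S.card < p),
          c S * intersection (contact d x) S) :=
  fun _ _ hc hF => ⟨fun _ _ _ _ hcon hno hT => main hc hF hcon hno hT,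
    fun _ _ _ d x _ hd hx h1 hno hT => main hc hF (polynomials d x hd hx h1) hno hT⟩

end Pool.Agent.Results.MP_23e236_ag.ThreePoints
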